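import Pool.Agent.H41P.Cut

/-!
# The path package for a longest cycle and the components outside it (abstract form)
-/

set_option autoImplicit false

namespace Pool.Agent.H41P

open List Pool.Agent.TF82 Pool.Agent.TFC Pool.Agent.EG31 Pool.Agent.H18C

universe u

set_option linter.unusedSectionVars false
set_option linter.unusedVariables false

variable {V : Type u} [DecidableEq V]

theorem P2.symm {G : SimpleGraph V} {H : Finset V} {M M' : Finset V} {n : ℕ}
    (h : ∃ v ∈ M, ∃ v' ∈ M', v ≠ v' ∧ Pth G H v v' n) :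
    ∃ v ∈ M', ∃ v' ∈ M, v ≠ v' ∧ Pth G H v v' n := by
  obtain ⟨v, hv, v', hv', h1, h2⟩ := h
  exact ⟨v', hv', v, hv, h1.symm, h2.symm⟩

/-- `K` = the vertices of the cycle, `P` = the components outside it -/
structure CycData (G : SimpleGraph V) (H S : Finset V) (b : ℕ) (K : Finset V)
    (P : Finset (Finset V)) (I S' : Finset V → Finset V) (bb : Finset V → ℕ) : Prop where
  hK : K ⊆ H
  sub : ∀ C ∈ P, C ⊆ H
  disK : ∀ C ∈ P, Disjoint C K
  dis : ∀ C ∈ P, ∀ D ∈ P, C ≠ D → Disjoint C D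
  cov : ∀ x ∈ H, x ∉ K → ∃ C ∈ P, x ∈ C
  con : ∀ x ∈ K, ∀ y ∈ K, Pth G K x y 1
  att : ∀ C ∈ P, ∀ x ∈ C, ∃ y ∈ K, ∃ w ∈ C, G.Adj y w ∧ Pth G C w x 1
  hub : ∀ C ∈ P, ∀ v ∈ I C, ∀ p, ∃ y ∈ K, y ≠ p ∧ ∃ w ∈ C, w ≠ v ∧ G.Adj w y
  hI : ∀ C ∈ P, I C ⊆ C
  h1 : ∀ C ∈ P, (I C).Nonempty → P1 G C (S' C) (bb C) (I C)
  h2 : ∀ C ∈ P, (I C).Nonempty → P2 G C (S' C) (bb C) (I C)
  hS : ∀ C ∈ P, (I C).Nonempty → S ∩ C ⊆ S' C
  hb : ∀ C ∈ P, (I C).Nonempty → b + FF P I C + (S \ C).card ≤ bb C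

namespace CycData

variable {G : SimpleGraph V} {H S : Finset V} {b : ℕ} {K : Finset V}
    {P : Finset (Finset V)} {I S' : Finset V → Finset V} {bb : Finset V → ℕ}

theorem count (h : CycData G H S b K P I S' bb) {M : Finset V} (hM : M ⊆ P.biUnion I)
    {C : Finset V} (hC : C ∈ P) : M.card ≤ (M ∩ I C).card + FF P I C := by
  have h1 : M ⊆ (M ∩ I C) ∪ (P.erase C).biUnion I := by
    intro x hx
    obtain ⟨D, hD, hxD⟩ := Finset.mem_biUnion.1 (hM hx)
    by_cases hDC : D = C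
    · subst hDC
      exact Finset.mem_union_left _ (Finset.mem_inter.2 ⟨hx, hxD⟩)
    · exact Finset.mem_union_right _ (Finset.mem_biUnion.2 ⟨D, Finset.mem_erase.2 ⟨hDC, hD⟩, hxD⟩)
  exact (Finset.card_le_card h1).trans ((Finset.card_union_le _ _).trans
    (Nat.add_le_add_left Finset.card_biUnion_le _))

theorem cardS (C : Finset V) : (S ∩ C).card + (S \ C).card = S.card := by
  rw [add_comm]
  exact Finset.card_sdiff_add_card_inter _ _

/-- (P1) of one component, extended to the whole set -/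
theorem one (h : CycData G H S b K P I S' bb) {M : Finset V} {C : Finset V}
    (hC : C ∈ P) (hM : M ⊆ P.biUnion I) (hne : (M ∩ I C).Nonempty) :
    ∃ v ∈ M ∩ I C, ∃ n, b + 1 + M.card + min 1 S.card ≤ n ∧
      (∀ x ∈ C, x ≠ v → Pth G C v x n) ∧ (∀ y ∈ K, Pth G (C ∪ K) v y (n + 1)) ∧
      ∀ x ∈ H, x ≠ v → Pth G H v x n := by
  have hIC : (I C).Nonempty := hne.mono Finset.inter_subset_right
  obtain ⟨v, hv, h1⟩ := h.h1 C hC hIC (M ∩ I C) Finset.inter_subset_right hne
  have h2 := h.count hM hC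
  have h3 := h.hb C hC hIC
  have h4 := Finset.card_le_card (h.hS C hC hIC)
  have h5 := cardS (S := S) C
  have hvC : v ∈ C := h.hI C hC (Finset.mem_inter.1 hv).2
  have hK : ∀ y ∈ K, Pth G (C ∪ K) v y
      (bb C + 1 + (M ∩ I C).card + min 1 (S' C).card + 1) := by
    intro y hy
    obtain ⟨y', hy', -, w, hw, hwv, hadj⟩ := h.hub C hC v (Finset.mem_inter.1 hv).2 v
    exact (h1 w hw hwv).app (h.con y' hy' y hy) (h.disK C hC) hadj
  have hCK : C ∪ K ⊆ H := Finset.union_subset (h.sub C hC) h.hK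
  refine ⟨v, hv, bb C + 1 + (M ∩ I C).card + min 1 (S' C).card, by omega, h1, hK, ?_⟩
  intro x hx hxv
  by_cases hxC : x ∈ C
  · exact (h1 x hxC hxv).mono (h.sub C hC) le_rfl
  by_cases hxK : x ∈ K
  · exact (hK x hxK).mono hCK (by omega)
  obtain ⟨D, hD, hxD⟩ := h.cov x hx hxK
  have hne' : C ≠ D := by
    rintro rfl
    exact hxC hxD
  obtain ⟨y, hy, w, hw, hadj, hp⟩ := h.att D hD x hxD
  have hdis : Disjoint (C ∪ K) D :=
    Finset.disjoint_union_left.2 ⟨h.dis C hC D hD hne', (h.disK D hD).symm⟩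
  exact ((hK y hy).app hp hdis hadj).mono (Finset.union_subset hCK (h.sub D hD)) (by omega)

theorem exists_meet {M : Finset V} (hM : M ⊆ P.biUnion I) (hne : M.Nonempty) :
    ∃ C ∈ P, (M ∩ I C).Nonempty := by
  obtain ⟨x, hx⟩ := hne
  obtain ⟨C, hC, hxC⟩ := Finset.mem_biUnion.1 (hM hx)
  exact ⟨C, hC, x, Finset.mem_inter.2 ⟨hx, hxC⟩⟩

/-- **(P1) for `p` and the members of the components** -/
theorem p1 (h : CycData G H S b K P I S' bb) {J : Finset V} {p : V}
    (hJ : J ⊆ insert p (P.biUnion I))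
    (hp : p ∈ J → ∀ x ∈ H, x ≠ p → Pth G H p x (J.card + b + 2)) : P1 G H S b J := by
  intro M hMJ hne
  by_cases hpM : p ∈ M
  · refine ⟨p, hpM, fun x hx hxp => (hp (hMJ hpM) x hx hxp).mono (Finset.Subset.refl _) ?_⟩
    have := Finset.card_le_card hMJ
    omega
  have hM : M ⊆ P.biUnion I := by
    intro x hx
    rcases Finset.mem_insert.1 (hJ (hMJ hx)) with h | h
    · exact absurd (h ▸ hx) hpM
    · exact h
  obtain ⟨C, hC, hCne⟩ := exists_meet hM hne
  obtain ⟨v, hv, n, h1, -, -, h2⟩ := h.one hC hM hCne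
  exact ⟨v, (Finset.mem_inter.1 hv).1, fun x hx hxv => (h2 x hx hxv).mono
    (Finset.Subset.refl _) h1⟩

/-- `p ∈ M` and another element in `M'` -/
theorem pin (h : CycData G H S b K P I S' bb) {J : Finset V} {p : V} (hpK : p ∈ K)
    (hJ : J ⊆ insert p (P.biUnion I))
    (harc : p ∈ J → ∀ y ∈ K, y ≠ p → Pth G K p y (J.card + b + 2)) {M M' : Finset V}
    (hMJ : M ⊆ J) (hMJ' : M' ⊆ J) (hpM : p ∈ M) (hne : (M'.erase p).Nonempty) :
    ∃ v ∈ M, ∃ v' ∈ M', v ≠ v' ∧
      Pth G H v v' (2 * b + M.card + M'.card + 2 * min 1 S.card) := by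
  have hM' : M'.erase p ⊆ P.biUnion I := by
    intro x hx
    rcases Finset.mem_insert.1 (hJ (hMJ' (Finset.mem_of_mem_erase hx))) with h | h
    · exact absurd h (Finset.ne_of_mem_erase hx)
    · exact h
  obtain ⟨C, hC, hCne⟩ := exists_meet hM' hne
  obtain ⟨v', hv', n, h1, h2, -, -⟩ := h.one hC hM' hCne
  have hv'I := (Finset.mem_inter.1 hv').2
  obtain ⟨y, hy, hyp, w, hw, hwv, hadj⟩ := h.hub C hC v' hv'I p
  have h3 := harc (hMJ hpM) y hy hyp
  have h4 := h3.app ((h2 w hw hwv).symm) (h.disK C hC).symm hadj.symm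
  refine ⟨p, hpM, v', Finset.mem_of_mem_erase (Finset.mem_inter.1 hv').1, ?_, ?_⟩
  · rintro rfl
    exact Finset.disjoint_left.1 (h.disK C hC) (h.hI C hC hv'I) hpK
  · have h5 : M.card ≤ J.card := Finset.card_le_card hMJ
    have h6 : M'.card ≤ (M'.erase p).card + 1 := by
      have := Finset.pred_card_le_card_erase (s := M') (a := p)
      omega
    exact h4.mono (Finset.union_subset h.hK (h.sub C hC)) (by omega)

/-- **(P2) for `p` and the members of the components** -/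
theorem p2 (h : CycData G H S b K P I S' bb) {J : Finset V} {p : V} (hpK : p ∈ K)
    (hJ : J ⊆ insert p (P.biUnion I))
    (harc : p ∈ J → ∀ y ∈ K, y ≠ p → Pth G K p y (J.card + b + 2)) : P2 G H S b J := by
  intro M hMJ M' hMJ' hne hne' hMM
  by_cases hpM : p ∈ M
  · by_cases he : (M'.erase p).Nonempty
    · exact h.pin hpK hJ harc hMJ hMJ' hpM he
    have hM'p : M' = {p} := by
      rw [Finset.not_nonempty_iff_eq_empty] at he
      obtain ⟨x, hx⟩ := hne'
      have h1 : M' ⊆ {p} := by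
        intro u hu
        by_contra hup
        have : u ∈ M'.erase p :=
          Finset.mem_erase.2 ⟨fun hh => hup (Finset.mem_singleton.2 hh), hu⟩
        rw [he] at this
        exact absurd this (Finset.notMem_empty _)
      exact Finset.Subset.antisymm h1 (Finset.singleton_subset_iff.2
        ((Finset.mem_singleton.1 (h1 hx)) ▸ hx))
    have he2 : (M.erase p).Nonempty := by
      by_contra hcon
      rw [Finset.not_nonempty_iff_eq_empty] at hcon
      have h2 : M = {p} := by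
        have h0 := Finset.insert_erase hpM
        rw [hcon] at h0
        simpa using h0.symm
      have h3 := hMM (h2.trans hM'p.symm)
      rw [h2, Finset.card_singleton] at h3
      omega
    have h4 := h.pin hpK hJ harc hMJ' hMJ (by rw [hM'p]; exact Finset.mem_singleton_self _) he2
    obtain ⟨v, hv, v', hv', h5, h6⟩ := P2.symm h4
    exact ⟨v, hv, v', hv', h5, h6.mono (Finset.Subset.refl _) (by omega)⟩
  by_cases hpM' : p ∈ M'
  · have he2 : (M.erase p).Nonempty := by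
      rw [Finset.erase_eq_of_notMem hpM]
      exact hne
    have h4 := h.pin hpK hJ harc hMJ' hMJ hpM' he2
    obtain ⟨v, hv, v', hv', h5, h6⟩ := P2.symm h4
    exact ⟨v, hv, v', hv', h5, h6.mono (Finset.Subset.refl _) (by omega)⟩
  have hsub : ∀ N ⊆ J, p ∉ N → N ⊆ P.biUnion I := by
    intro N hN hpN x hx
    rcases Finset.mem_insert.1 (hJ (hN hx)) with h | h
    · exact absurd (h ▸ hx) hpN
    · exact h
  have hM := hsub M hMJ hpM
  have hM' := hsub M' hMJ' hpM'
  by_cases hone : ∃ C ∈ P, M ⊆ I C ∧ M' ⊆ I C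
  · obtain ⟨C, hC, hMC, hMC'⟩ := hone
    have hIC : (I C).Nonempty := hne.mono hMC
    obtain ⟨v, hv, v', hv', h5, h6⟩ := h.h2 C hC hIC M hMC M' hMC' hne hne' hMM
    have h3 := h.hb C hC hIC
    have h4 := Finset.card_le_card (h.hS C hC hIC)
    have h7 := cardS (S := S) C
    exact ⟨v, hv, v', hv', h5, h6.mono (h.sub C hC) (by omega)⟩
  obtain ⟨C, hC, D, hD, hCD, hMC, hMD⟩ : ∃ C ∈ P, ∃ D ∈ P, C ≠ D ∧ (M ∩ I C).Nonempty ∧
      (M' ∩ I D).Nonempty := by
    obtain ⟨C, hC, hCne⟩ := exists_meet hM hne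
    by_cases h1 : ∃ D ∈ P, C ≠ D ∧ (M' ∩ I D).Nonempty
    · obtain ⟨D, hD, hCD, hDne⟩ := h1
      exact ⟨C, hC, D, hD, hCD, hCne, hDne⟩
    push Not at h1
    have hsub : ∀ N ⊆ P.biUnion I, (∀ D ∈ P, C ≠ D → N ∩ I D = ∅) → N ⊆ I C := by
      intro N hN h2 x hx
      obtain ⟨D, hD, hxD⟩ := Finset.mem_biUnion.1 (hN hx)
      by_cases hCD : C = D
      · exact hCD ▸ hxD
      · exact absurd (Finset.mem_inter.2 ⟨hx, hxD⟩)
          (by rw [h2 D hD hCD]; exact Finset.notMem_empty _)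
    have hM'C : M' ⊆ I C := hsub M' hM' (fun D hD hCD => by
      have := h1 D hD hCD
      simpa [Finset.not_nonempty_iff_eq_empty] using this)
    have h2 : ∃ D ∈ P, C ≠ D ∧ (M ∩ I D).Nonempty := by
      by_contra hcon
      push Not at hcon
      exact hone ⟨C, hC, hsub M hM (fun D hD hCD => by
        have := hcon D hD hCD
        simpa [Finset.not_nonempty_iff_eq_empty] using this), hM'C⟩
    obtain ⟨D, hD, hCD, hDne⟩ := h2
    exact ⟨D, hD, C, hC, Ne.symm hCD, hDne, by rw [Finset.inter_eq_left.2 hM'C]; exact hne'⟩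
  obtain ⟨v, hv, n, h1, h2, h3, -⟩ := h.one hC hM hMC
  obtain ⟨v', hv', n', h1', h2', h3', -⟩ := h.one hD hM' hMD
  have hvI := (Finset.mem_inter.1 hv).2
  have hvI' := (Finset.mem_inter.1 hv').2
  obtain ⟨y, hy, -, w, hw, hwv, hadj⟩ := h.hub D hD v' hvI' v'
  have hdis : Disjoint (C ∪ K) D :=
    Finset.disjoint_union_left.2 ⟨h.dis C hC D hD hCD, (h.disK D hD).symm⟩
  have h4 := (h3 y hy).app ((h2' w hw hwv).symm) hdis hadj.symm
  refine ⟨v, (Finset.mem_inter.1 hv).1, v', (Finset.mem_inter.1 hv').1, ?_, ?_⟩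
  · rintro rfl
    exact Finset.disjoint_left.1 (h.dis C hC D hD hCD) (h.hI C hC hvI) (h.hI D hD hvI')
  · exact h4.mono (Finset.union_subset (Finset.union_subset (h.sub C hC) h.hK) (h.sub D hD))
      (by omega)

end CycData

end Pool.Agent.H41P
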