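import Pool.Agent.H62P.Pkg
import Pool.Agent.H41P.Cyc

/-! The path package in the two namespaces. -/

set_option autoImplicit false

namespace Pool.Agent.H41P

universe u

variable {V : Type u} [DecidableEq V]

theorem pth_iff {G : SimpleGraph V} {H : Finset V} {a b : V} {n : ℕ} :
    Pool.Agent.H62P.Pth G H a b n ↔ Pth G H a b n := Iff.rfl

theorem p1_iff {G : SimpleGraph V} {H S I : Finset V} {b : ℕ} :
    Pool.Agent.H62P.P1 G H S b I ↔ P1 G H S b I := Iff.rfl

theorem p2_iff {G : SimpleGraph V} {H S I : Finset V} {b : ℕ} :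
    Pool.Agent.H62P.P2 G H S b I ↔ P2 G H S b I := by
  constructor
  · intro h M hM M' hM' h1 h2 h3
    refine h M hM M' hM' h1 h2 ?_
    rintro ⟨h4, h5⟩
    have := h3 h4
    omega
  · intro h M hM M' hM' h1 h2 h3
    refine h M hM M' hM' h1 h2 ?_
    intro h4
    have h5 := Finset.card_pos.2 h1
    by_contra h6
    exact h3 ⟨h4, by omega⟩

end Pool.Agent.H41P
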