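import Pool.Agent.H41P.Pth

/-!
# The path package at a cut vertex
-/

set_option autoImplicit false

namespace Pool.Agent.H41P

open List Pool.Agent.TF82 Pool.Agent.TFC Pool.Agent.EG31 Pool.Agent.H18C

universe u

set_option linter.unusedSectionVars false
set_option linter.unusedVariables false

variable {V : Type u} [DecidableEq V]

theorem part_eq {G : SimpleGraph V} {H C D : Finset V} {z x : V} (hC : Part G H z C)
    (hD : Part G H z D) (hxC : x ∈ C) (hxD : x ∈ D) : C ⊆ D := by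
  intro c hc
  have key : ∀ c, Reach G C x c → c ∈ D := by
    intro c h
    induction h with
    | refl => exact hxD
    | @tail a b hab hbc ih =>
      rcases hD.cl a ih b (hC.subH hbc.2.1) hbc.2.2 with h | h
      · exact h
      · exact absurd (h ▸ hbc.2.1) hC.znC
  exact key c (hC.conn x hxC c hc)

/-- all components of `H - z` -/
structure Parts (G : SimpleGraph V) (H : Finset V) (z : V) (P : Finset (Finset V)) : Prop where
  zH : z ∈ H
  part : ∀ C ∈ P, Part G H z C
  dis : ∀ C ∈ P, ∀ D ∈ P, C ≠ D → Disjoint C D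
  cov : ∀ x ∈ H, x ≠ z → ∃ C ∈ P, x ∈ C

theorem exists_parts {G : SimpleGraph V} {H : Finset V} {z : V} (hz : z ∈ H) :
    ∃ P, Parts G H z P := by
  classical
  refine ⟨H.powerset.filter (fun C => Part G H z C), hz, ?_, ?_, ?_⟩
  · intro C hC
    exact (Finset.mem_filter.1 hC).2
  · intro C hC D hD hne
    rw [Finset.disjoint_left]
    intro x hx hx'
    exact hne (Finset.Subset.antisymm
      (part_eq (Finset.mem_filter.1 hC).2 (Finset.mem_filter.1 hD).2 hx hx')
      (part_eq (Finset.mem_filter.1 hD).2 (Finset.mem_filter.1 hC).2 hx' hx))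
  · intro x hx hxz
    obtain ⟨C, h1, h2⟩ := exists_part hz (Finset.mem_erase.2 ⟨hxz, hx⟩)
    exact ⟨C, Finset.mem_filter.2 ⟨Finset.mem_powerset.2 h2.subH, h2⟩, h1⟩

/-- the members outside `C` -/
def FF (P : Finset (Finset V)) (I : Finset V → Finset V) (C : Finset V) : ℕ :=
  ∑ D ∈ P.erase C, (I D).card

structure CutData (G : SimpleGraph V) (H S : Finset V) (b : ℕ) (z : V)
    (P Ph : Finset (Finset V)) (I : Finset V → Finset V) (bb : Finset V → ℕ) : Prop where
  hH : Conn1 G H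
  hP : Parts G H z P
  hPh : Ph ⊆ P
  hI : ∀ C ∈ P, I C ⊆ C
  h1 : ∀ C ∈ P, C ∉ Ph → (I C).Nonempty → P1 G (insert z C) (insert z (S ∩ C)) (bb C) (I C)
  h2 : ∀ C ∈ P, C ∉ Ph → (I C).Nonempty → P2 G (insert z C) (insert z (S ∩ C)) (bb C) (I C)
  k1 : ∀ C ∈ Ph, (I C).Nonempty → P1 G C (S ∩ C) (bb C) (I C)
  k2 : ∀ C ∈ Ph, (I C).Nonempty → P2 G C (S ∩ C) (bb C) (I C)
  kN : ∀ C ∈ Ph, ∀ v ∈ I C, ∃ x ∈ C, x ≠ v ∧ G.Adj x z
  hb : ∀ C ∈ P, C ∉ Ph → (I C).Nonempty →
    b + FF P I C + S.card ≤ bb C + (insert z (S ∩ C)).card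
  kb : ∀ C ∈ Ph, (I C).Nonempty → b + FF P I C + S.card ≤ bb C + 1 + (S ∩ C).card
  hF : ∀ C ∈ P, (I C).Nonempty → 1 ≤ FF P I C

namespace CutData

variable {G : SimpleGraph V} {H S : Finset V} {b : ℕ} {z : V}
    {P Ph : Finset (Finset V)} {I : Finset V → Finset V} {bb : Finset V → ℕ}

/-- from `z` to any vertex of another part -/
theorem beyond (h : CutData G H S b z P Ph I bb) {C : Finset V} (hC : C ∈ P) {v x : V} {n : ℕ}
    (hv : Pth G (insert z C) v z n) (hx : x ∈ H) (hxC : x ∉ C) : Pth G H v x n := by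
  have hCH : insert z C ⊆ H := (h.hP.part C hC).insH
  by_cases hxz : x = z
  · rw [hxz]
    exact hv.mono hCH le_rfl
  obtain ⟨D, hD, hxD⟩ := h.hP.cov x hx hxz
  have hne : C ≠ D := by
    rintro rfl
    exact hxC hxD
  have hpD := h.hP.part D hD
  have h1 : Pth G (insert z D) z x 1 :=
    Pth.of_conn (hpD.conn_ins h.hH) (Finset.mem_insert_self _ _) (Finset.mem_insert_of_mem hxD)
  have h2 := hv.glue h1 (h.hP.dis C hC D hD hne) (h.hP.part C hC).znC hpD.znC
  refine h2.mono ?_ (by omega)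
  intro u hu
  rcases Finset.mem_insert.1 hu with rfl | hu
  · exact h.hP.zH
  · rcases Finset.mem_union.1 hu with hu | hu
    · exact (h.hP.part C hC).subH hu
    · exact hpD.subH hu

/-- unhelped parts -/
theorem unh (h : CutData G H S b z P Ph I bb) {C M : Finset V} (hC : C ∈ P) (hCh : C ∉ Ph)
    (hM : M ⊆ I C) (hne : M.Nonempty) :
    ∃ v ∈ M, (∀ x ∈ H, x ≠ v → Pth G H v x (bb C + 2 + M.card)) ∧
      Pth G (insert z C) v z (bb C + 2 + M.card) := by
  obtain ⟨v, hv, h1⟩ := h.h1 C hC hCh (hne.mono hM) M hM hne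
  have hs : min 1 (insert z (S ∩ C)).card = 1 := by
    have : 1 ≤ (insert z (S ∩ C)).card :=
      Finset.card_pos.2 ⟨z, Finset.mem_insert_self _ _⟩
    omega
  rw [hs] at h1
  have hvC : v ∈ C := h.hI C hC (hM hv)
  have hvz : z ≠ v := by
    rintro rfl
    exact (h.hP.part C hC).znC hvC
  have hz : Pth G (insert z C) v z (bb C + 2 + M.card) :=
    (h1 z (Finset.mem_insert_self _ _) hvz).mono (Finset.Subset.refl _) (by omega)
  refine ⟨v, hv, ?_, hz⟩
  intro x hx hxv
  by_cases hxC : x ∈ C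
  · exact (h1 x (Finset.mem_insert_of_mem hxC) hxv).mono (h.hP.part C hC).insH (by omega)
  · exact h.beyond hC hz hx hxC

/-- helped parts -/
theorem hlp (h : CutData G H S b z P Ph I bb) {C M : Finset V} (hCh : C ∈ Ph)
    (hM : M ⊆ I C) (hne : M.Nonempty) :
    ∃ v ∈ M, (∀ x ∈ H, x ≠ v → Pth G H v x (bb C + 1 + M.card + min 1 (S ∩ C).card)) ∧
      Pth G (insert z C) v z (bb C + 2 + M.card + min 1 (S ∩ C).card) := by
  have hC := h.hPh hCh
  obtain ⟨v, hv, h1⟩ := h.k1 C hCh (hne.mono hM) M hM hne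
  have hvC : v ∈ C := h.hI C hC (hM hv)
  obtain ⟨x', hx', hxv', hadj⟩ := h.kN C hCh v (hM hv)
  have h2 := (h1 x' hx' hxv').app (Pth.refl (G := G) (Finset.mem_singleton_self z))
    (Finset.disjoint_singleton_right.2 (h.hP.part C hC).znC) hadj
  have hz : Pth G (insert z C) v z (bb C + 2 + M.card + min 1 (S ∩ C).card) := by
    refine h2.mono ?_ (by omega)
    intro u hu
    rcases Finset.mem_union.1 hu with hu | hu
    · exact Finset.mem_insert_of_mem hu
    · exact Finset.mem_insert.2 (Or.inl (Finset.mem_singleton.1 hu))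
  refine ⟨v, hv, ?_, hz⟩
  intro x hx hxv
  by_cases hxC : x ∈ C
  · exact (h1 x hxC hxv).mono (h.hP.part C hC).subH le_rfl
  · exact (h.beyond hC hz hx hxC).mono (Finset.Subset.refl _) (by omega)

theorem count (h : CutData G H S b z P Ph I bb) {M : Finset V} (hM : M ⊆ P.biUnion I)
    {C : Finset V} (hC : C ∈ P) : M.card ≤ (M ∩ I C).card + FF P I C := by
  have h1 : M ⊆ (M ∩ I C) ∪ (P.erase C).biUnion I := by
    intro x hx
    obtain ⟨D, hD, hxD⟩ := Finset.mem_biUnion.1 (hM hx)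
    by_cases hDC : D = C
    · subst hDC
      exact Finset.mem_union_left _ (Finset.mem_inter.2 ⟨hx, hxD⟩)
    · exact Finset.mem_union_right _ (Finset.mem_biUnion.2 ⟨D, Finset.mem_erase.2 ⟨hDC, hD⟩, hxD⟩)
  exact (Finset.card_le_card h1).trans ((Finset.card_union_le _ _).trans
    (Nat.add_le_add_left Finset.card_biUnion_le _))

theorem count' (h : CutData G H S b z P Ph I bb) {M : Finset V} (hM : M ⊆ P.biUnion I)
    {C D : Finset V} {v : V} (hC : C ∈ P) (hD : D ∈ P) (hDC : D ≠ C) (hv : v ∈ I D)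
    (hvM : v ∉ M) : M.card + 1 ≤ (M ∩ I C).card + FF P I C := by
  have h1 : insert v M ⊆ (M ∩ I C) ∪ (P.erase C).biUnion I := by
    intro x hx
    rcases Finset.mem_insert.1 hx with rfl | hx
    · exact Finset.mem_union_right _
        (Finset.mem_biUnion.2 ⟨D, Finset.mem_erase.2 ⟨hDC, hD⟩, hv⟩)
    · obtain ⟨D, hD, hxD⟩ := Finset.mem_biUnion.1 (hM hx)
      by_cases hDC : D = C
      · subst hDC
        exact Finset.mem_union_left _ (Finset.mem_inter.2 ⟨hx, hxD⟩)
      · exact Finset.mem_union_right _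
          (Finset.mem_biUnion.2 ⟨D, Finset.mem_erase.2 ⟨hDC, hD⟩, hxD⟩)
  rw [← Finset.card_insert_of_notMem hvM]
  exact (Finset.card_le_card h1).trans ((Finset.card_union_le _ _).trans
    (Nat.add_le_add_left Finset.card_biUnion_le _))

theorem exists_meet {M : Finset V} (hM : M ⊆ P.biUnion I) (hne : M.Nonempty) :
    ∃ C ∈ P, (M ∩ I C).Nonempty := by
  obtain ⟨x, hx⟩ := hne
  obtain ⟨C, hC, hxC⟩ := Finset.mem_biUnion.1 (hM hx)
  exact ⟨C, hC, x, Finset.mem_inter.2 ⟨hx, hxC⟩⟩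

theorem cardS (h : CutData G H S b z P Ph I bb) {C : Finset V} (hC : C ∈ P) :
    (S ∩ C).card + (S \ C).card = S.card ∧ (insert z (S ∩ C)).card = (S ∩ C).card + 1 := by
  refine ⟨?_, ?_⟩
  · rw [add_comm]
    exact Finset.card_sdiff_add_card_inter _ _
  · refine Finset.card_insert_of_notMem ?_
    intro hz
    exact (h.hP.part C hC).znC (Finset.mem_inter.1 hz).2

theorem cardS2 (h : CutData G H S b z P Ph I bb) {C D : Finset V} (hC : C ∈ P) (hD : D ∈ P)
    (hne : C ≠ D) : S.card ≤ (S \ C).card + (S \ D).card := by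
  have h1 : S ⊆ (S \ C) ∪ (S \ D) := by
    intro x hx
    by_cases hxC : x ∈ C
    · exact Finset.mem_union_right _ (Finset.mem_sdiff.2 ⟨hx, fun hxD =>
        Finset.disjoint_left.1 (h.hP.dis C hC D hD hne) hxC hxD⟩)
    · exact Finset.mem_union_left _ (Finset.mem_sdiff.2 ⟨hx, hxC⟩)
  exact (Finset.card_le_card h1).trans (Finset.card_union_le _ _)

/-- **(P1) at a cut vertex** -/
theorem p1 (h : CutData G H S b z P Ph I bb) {J : Finset V} (hJ : J ⊆ P.biUnion I)
    (hs : Ph = ∅ ∨ ∃ D ∈ P, ∃ v ∈ I D, v ∉ J) : P1 G H S b J := by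
  intro M hMJ hne
  have hM : M ⊆ P.biUnion I := hMJ.trans hJ
  rcases hs with hPh | ⟨D, hD, v0, hv0, hv0J⟩
  · -- nothing is helped
    obtain ⟨C, hC, hCne, hsl⟩ : ∃ C ∈ P, (M ∩ I C).Nonempty ∧
        (M.card + 1 ≤ (M ∩ I C).card + FF P I C ∨ 1 ≤ (S \ C).card ∨ S.card = 0) := by
      obtain ⟨C, hC, hCne⟩ := exists_meet hM hne
      by_cases h1 : M.card + 1 ≤ (M ∩ I C).card + FF P I C ∨ 1 ≤ (S \ C).card ∨ S.card = 0
      · exact ⟨C, hC, hCne, h1⟩
      push Not at h1
      obtain ⟨h1, h2, h3⟩ := h1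
      have hF := h.hF C hC (hCne.mono Finset.inter_subset_right)
      obtain ⟨D, hD, hDn⟩ : ∃ D ∈ P.erase C, (I D).card ≠ 0 := by
        by_contra hcon
        push Not at hcon
        unfold FF at hF
        rw [Finset.sum_eq_zero hcon] at hF
        omega
      have hD' := Finset.mem_erase.1 hD
      have hDne : (I D).Nonempty := Finset.card_pos.1 (by omega)
      have hsub : I D ⊆ M := by
        intro v hv
        by_contra hvM
        have := h.count' hM hC hD'.2 hD'.1 hv hvM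
        omega
      refine ⟨D, hD'.2, ?_, Or.inr (Or.inl ?_)⟩
      · rw [Finset.inter_eq_right.2 hsub]
        exact hDne
      · have h5 := h.cardS2 hC hD'.2 (Ne.symm hD'.1)
        omega
    have hCh : C ∉ Ph := by rw [hPh]; exact Finset.notMem_empty _
    obtain ⟨v, hv, h1, -⟩ := h.unh hC hCh Finset.inter_subset_right hCne
    refine ⟨v, (Finset.mem_inter.1 hv).1, fun x hx hxv => (h1 x hx hxv).mono
      (Finset.Subset.refl _) ?_⟩
    have h2 := h.hb C hC hCh (hCne.mono Finset.inter_subset_right)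
    have h3 := h.cardS hC
    have h4 := h.count hM hC
    rw [h3.2] at h2
    omega
  · -- one member is dropped
    have hv0M : v0 ∉ M := fun hh => hv0J (hMJ hh)
    obtain ⟨C, hC, hCne, hsl⟩ : ∃ C ∈ P, (M ∩ I C).Nonempty ∧
        M.card + 1 ≤ (M ∩ I C).card + FF P I C := by
      by_cases h1 : ∃ C ∈ P, C ≠ D ∧ (M ∩ I C).Nonempty
      · obtain ⟨C, hC, hCD, hCne⟩ := h1
        exact ⟨C, hC, hCne, h.count' hM hC hD (Ne.symm hCD) hv0 hv0M⟩
      · push Not at h1
        have hsub : M ⊆ I D := by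
          intro x hx
          obtain ⟨C, hC, hxC⟩ := Finset.mem_biUnion.1 (hM hx)
          by_cases hCD : C = D
          · exact hCD ▸ hxC
          · have := h1 C hC hCD
            exact absurd (Finset.mem_inter.2 ⟨hx, hxC⟩) (by rw [this]; exact Finset.notMem_empty _)
        have hF := h.hF D hD ⟨v0, hv0⟩
        refine ⟨D, hD, ?_, ?_⟩
        · rw [Finset.inter_eq_left.2 hsub]; exact hne
        · rw [Finset.inter_eq_left.2 hsub]; omega
    have h3 := h.cardS hC
    by_cases hCh : C ∈ Ph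
    · obtain ⟨v, hv, h1, -⟩ := h.hlp hCh Finset.inter_subset_right hCne
      refine ⟨v, (Finset.mem_inter.1 hv).1, fun x hx hxv => (h1 x hx hxv).mono
        (Finset.Subset.refl _) ?_⟩
      have h2 := h.kb C hCh (hCne.mono Finset.inter_subset_right)
      omega
    · obtain ⟨v, hv, h1, -⟩ := h.unh hC hCh Finset.inter_subset_right hCne
      refine ⟨v, (Finset.mem_inter.1 hv).1, fun x hx hxv => (h1 x hx hxv).mono
        (Finset.Subset.refl _) ?_⟩
      have h2 := h.hb C hC hCh (hCne.mono Finset.inter_subset_right)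
      rw [h3.2] at h2
      omega

/-- a long path to the cut vertex -/
theorem toz (h : CutData G H S b z P Ph I bb) {C M : Finset V} (hC : C ∈ P)
    (hM : M ⊆ P.biUnion I) (hne : (M ∩ I C).Nonempty) :
    ∃ v ∈ M ∩ I C, ∃ n, Pth G (insert z C) v z n ∧ b + 1 + M.card ≤ n ∧
      (b + 1 + M.card + min 1 S.card ≤ n ∨ b + 1 + M.card + (S \ C).card ≤ n) := by
  have h3 := h.cardS hC
  have h4 := h.count hM hC
  by_cases hCh : C ∈ Ph
  · obtain ⟨v, hv, -, h1⟩ := h.hlp hCh Finset.inter_subset_right hne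
    have h2 := h.kb C hCh (hne.mono Finset.inter_subset_right)
    exact ⟨v, hv, _, h1, by omega, by omega⟩
  · obtain ⟨v, hv, -, h1⟩ := h.unh hC hCh Finset.inter_subset_right hne
    have h2 := h.hb C hC hCh (hne.mono Finset.inter_subset_right)
    rw [h3.2] at h2
    exact ⟨v, hv, _, h1, by omega, by omega⟩

/-- **(P2) at a cut vertex** -/
theorem p2 (h : CutData G H S b z P Ph I bb) {J : Finset V} (hJ : J ⊆ P.biUnion I) :
    P2 G H S b J := by
  intro M hMJ M' hMJ' hne hne' hMM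
  have hM : M ⊆ P.biUnion I := hMJ.trans hJ
  have hM' : M' ⊆ P.biUnion I := hMJ'.trans hJ
  -- both in one part
  by_cases hone : ∃ C ∈ P, M ⊆ I C ∧ M' ⊆ I C
  · obtain ⟨C, hC, hMC, hMC'⟩ := hone
    have hIC : (I C).Nonempty := hne.mono hMC
    have h3 := h.cardS hC
    have h4 := h.hF C hC hIC
    by_cases hCh : C ∈ Ph
    · obtain ⟨v, hv, v', hv', h5, h6⟩ := h.k2 C hCh hIC M hMC M' hMC' hne hne' hMM
      have h2 := h.kb C hCh hIC
      exact ⟨v, hv, v', hv', h5, h6.mono (h.hP.part C hC).subH (by omega)⟩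
    · obtain ⟨v, hv, v', hv', h5, h6⟩ := h.h2 C hC hCh hIC M hMC M' hMC' hne hne' hMM
      have h2 := h.hb C hC hCh hIC
      rw [h3.2] at h2 h6
      exact ⟨v, hv, v', hv', h5, h6.mono (h.hP.part C hC).insH (by omega)⟩
  -- two different parts
  obtain ⟨C, hC, D, hD, hCD, hMC, hMD⟩ : ∃ C ∈ P, ∃ D ∈ P, C ≠ D ∧ (M ∩ I C).Nonempty ∧
      (M' ∩ I D).Nonempty := by
    obtain ⟨C, hC, hCne⟩ := exists_meet hM hne
    by_cases h1 : ∃ D ∈ P, C ≠ D ∧ (M' ∩ I D).Nonempty
    · obtain ⟨D, hD, hCD, hDne⟩ := h1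
      exact ⟨C, hC, D, hD, hCD, hCne, hDne⟩
    push Not at h1
    have hsub : ∀ N ⊆ P.biUnion I, (∀ D ∈ P, C ≠ D → N ∩ I D = ∅) → N ⊆ I C := by
      intro N hN h2 x hx
      obtain ⟨D, hD, hxD⟩ := Finset.mem_biUnion.1 (hN hx)
      by_cases hCD : C = D
      · exact hCD ▸ hxD
      · exact absurd (Finset.mem_inter.2 ⟨hx, hxD⟩)
          (by rw [h2 D hD hCD]; exact Finset.notMem_empty _)
    have hM'C : M' ⊆ I C := hsub M' hM' (fun D hD hCD => by
      have := h1 D hD hCD
      simpa [Finset.not_nonempty_iff_eq_empty] using this)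
    have h2 : ∃ D ∈ P, C ≠ D ∧ (M ∩ I D).Nonempty := by
      by_contra hcon
      push Not at hcon
      exact hone ⟨C, hC, hsub M hM (fun D hD hCD => by
        have := hcon D hD hCD
        simpa [Finset.not_nonempty_iff_eq_empty] using this), hM'C⟩
    obtain ⟨D, hD, hCD, hDne⟩ := h2
    exact ⟨D, hD, C, hC, Ne.symm hCD, hDne, by rw [Finset.inter_eq_left.2 hM'C]; exact hne'⟩
  obtain ⟨v, hv, n, h1, h2, h3⟩ := h.toz hC hM hMC
  obtain ⟨v', hv', n', h1', h2', h3'⟩ := h.toz hD hM' hMD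
  have hdis := h.hP.dis C hC D hD hCD
  refine ⟨v, (Finset.mem_inter.1 hv).1, v', (Finset.mem_inter.1 hv').1, ?_, ?_⟩
  · rintro rfl
    exact Finset.disjoint_left.1 hdis (h.hI C hC (Finset.mem_inter.1 hv).2)
      (h.hI D hD (Finset.mem_inter.1 hv').2)
  · have h5 := h.cardS2 hC hD hCD
    refine (h1.glue h1'.symm hdis (h.hP.part C hC).znC (h.hP.part D hD).znC).mono ?_ (by omega)
    intro u hu
    rcases Finset.mem_insert.1 hu with rfl | hu
    · exact h.hP.zH
    · rcases Finset.mem_union.1 hu with hu | hu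
      · exact (h.hP.part C hC).subH hu
      · exact (h.hP.part D hD).subH hu

end CutData

end Pool.Agent.H41P
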