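import Pool.Agent.H18C.Near

/-!
# Long paths inside a set, and the path package of an independent set
-/

set_option autoImplicit false

namespace Pool.Agent.H41P

open List Pool.Agent.TF82 Pool.Agent.TFC Pool.Agent.EG31 Pool.Agent.H18C

universe u

set_option linter.unusedSectionVars false
set_option linter.unusedVariables false

variable {V : Type u} [DecidableEq V]

/-- a path inside `H` from `a` to `b` with at least `n` vertices -/
def Pth (G : SimpleGraph V) (H : Finset V) (a b : V) (n : ℕ) : Prop :=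
  ∃ q : List V, Seg G q a b ∧ q.Nodup ∧ (∀ z ∈ q, z ∈ H) ∧ n ≤ q.length

theorem Pth.mono {G : SimpleGraph V} {H H' : Finset V} {a b : V} {n n' : ℕ} (h : Pth G H a b n)
    (hH : H ⊆ H') (hn : n' ≤ n) : Pth G H' a b n' := by
  obtain ⟨q, h1, h2, h3, h4⟩ := h
  exact ⟨q, h1, h2, fun z hz => hH (h3 z hz), hn.trans h4⟩

theorem Pth.symm {G : SimpleGraph V} {H : Finset V} {a b : V} {n : ℕ} (h : Pth G H a b n) :
    Pth G H b a n := by
  obtain ⟨q, h1, h2, h3, h4⟩ := h
  exact ⟨q.reverse, h1.rev, List.nodup_reverse.2 h2, fun z hz => h3 z (List.mem_reverse.1 hz),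
    by rw [List.length_reverse]; exact h4⟩

theorem seg_hd_mem {G : SimpleGraph V} {q : List V} {a b : V} (h : Seg G q a b) : a ∈ q := by
  rcases q with _ | ⟨x, q⟩
  · simpa using h.hd
  · have := h.hd
    simp only [List.head?_cons, Option.some.injEq] at this
    rw [this]
    exact List.mem_cons_self

theorem seg_lt_mem {G : SimpleGraph V} {q : List V} {a b : V} (h : Seg G q a b) : b ∈ q :=
  List.mem_reverse.1 (seg_hd_mem h.rev)

theorem Pth.left {G : SimpleGraph V} {H : Finset V} {a b : V} {n : ℕ} (h : Pth G H a b n) :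
    a ∈ H := by
  obtain ⟨q, h1, h2, h3, h4⟩ := h
  exact h3 _ (seg_hd_mem h1)

theorem Pth.refl {G : SimpleGraph V} {H : Finset V} {a : V} (h : a ∈ H) : Pth G H a a 1 :=
  ⟨[a], ⟨by simp, by simp, by simp⟩, by simp, by simpa using h, by simp⟩

/-- two paths in disjoint sets, joined by an edge -/
theorem Pth.app {G : SimpleGraph V} {A B : Finset V} {a x y b : V} {n m : ℕ}
    (hA : Pth G A a x n) (hB : Pth G B y b m) (hd : Disjoint A B) (hxy : G.Adj x y) :
    Pth G (A ∪ B) a b (n + m) := by
  obtain ⟨q, h1, h2, h3, h4⟩ := hA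
  obtain ⟨r, k1, k2, k3, k4⟩ := hB
  refine ⟨q ++ r, h1.append k1 hxy, ?_, ?_, ?_⟩
  · rw [List.nodup_append]
    refine ⟨h2, k2, ?_⟩
    rintro u hu w hw rfl
    exact Finset.disjoint_left.1 hd (h3 u hu) (k3 u hw)
  · intro z hz
    rcases List.mem_append.1 hz with hz | hz
    · exact Finset.mem_union_left _ (h3 z hz)
    · exact Finset.mem_union_right _ (k3 z hz)
  · rw [List.length_append]
    omega

/-- two paths glued at a common end -/
theorem Pth.glue {G : SimpleGraph V} {A B : Finset V} {a z b : V} {n m : ℕ}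
    (hA : Pth G (insert z A) a z n) (hB : Pth G (insert z B) z b m) (hd : Disjoint A B)
    (hzA : z ∉ A) (hzB : z ∉ B) :
    Pth G (insert z (A ∪ B)) a b (n + m - 1) := by
  obtain ⟨q, h1, h2, h3, h4⟩ := hA
  obtain ⟨r, k1, k2, k3, k4⟩ := hB
  rcases r with _ | ⟨w, r⟩
  · have := k1.hd
    simp at this
  have hw : w = z := by
    have := k1.hd
    simpa using this
  subst hw
  rcases r with _ | ⟨w2, r⟩
  · have hb : w = b := by
      have := k1.lt
      simpa using this
    subst hb
    refine ⟨q, h1, h2, ?_, ?_⟩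
    · intro u hu
      rcases Finset.mem_insert.1 (h3 u hu) with h | h
      · exact Finset.mem_insert.2 (Or.inl h)
      · exact Finset.mem_insert_of_mem (Finset.mem_union_left _ h)
    · simp only [List.length_cons, List.length_nil] at k4
      omega
  · have hch := k1.ch
    rw [List.isChain_cons_cons] at hch
    have hseg : Seg G (w2 :: r) w2 b := by
      refine ⟨hch.2, by simp, ?_⟩
      have := k1.lt
      simpa using this
    have hwn : w ∉ w2 :: r := (List.nodup_cons.1 k2).1
    have hB : ∀ u ∈ w2 :: r, u ∈ B := by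
      intro u hu
      rcases Finset.mem_insert.1 (k3 u (List.mem_cons_of_mem _ hu)) with h | h
      · exact absurd (h ▸ hu) hwn
      · exact h
    refine ⟨q ++ (w2 :: r), h1.append hseg hch.1, ?_, ?_, ?_⟩
    · rw [List.nodup_append]
      refine ⟨h2, (List.nodup_cons.1 k2).2, ?_⟩
      rintro u hu v hv rfl
      have h5 := hB u hv
      rcases Finset.mem_insert.1 (h3 u hu) with h | h
      · exact hzB (h ▸ h5)
      · exact Finset.disjoint_left.1 hd h h5
    · intro u hu
      rcases List.mem_append.1 hu with hu | hu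
      · rcases Finset.mem_insert.1 (h3 u hu) with h | h
        · exact Finset.mem_insert.2 (Or.inl h)
        · exact Finset.mem_insert_of_mem (Finset.mem_union_left _ h)
      · exact Finset.mem_insert_of_mem (Finset.mem_union_right _ (hB u hu))
    · simp only [List.length_append, List.length_cons] at *
      omega

/-- in a connected set there is a path between two vertices -/
theorem Pth.of_conn {G : SimpleGraph V} {H : Finset V} (hH : Conn1 G H) {a b : V} (ha : a ∈ H)
    (hb : b ∈ H) : Pth G H a b 1 := by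
  obtain ⟨q, h1, h2, h3⟩ := seg_of_reach (hH a ha b hb) ha
  exact ⟨q, h1, h2, h3, h1.pos⟩

/-- (P1) -/
def P1 (G : SimpleGraph V) (H S : Finset V) (b : ℕ) (I : Finset V) : Prop :=
  ∀ M ⊆ I, M.Nonempty → ∃ v ∈ M, ∀ x ∈ H, x ≠ v → Pth G H v x (b + 1 + M.card + min 1 S.card)

/-- (P2) -/
def P2 (G : SimpleGraph V) (H S : Finset V) (b : ℕ) (I : Finset V) : Prop :=
  ∀ M ⊆ I, ∀ M' ⊆ I, M.Nonempty → M'.Nonempty → (M = M' → 2 ≤ M.card) →
    ∃ v ∈ M, ∃ v' ∈ M', v ≠ v' ∧
      Pth G H v v' (2 * b + M.card + M'.card + 2 * min 1 S.card)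

theorem P1.sub {G : SimpleGraph V} {H S I J : Finset V} {b b' : ℕ} (h : P1 G H S b I)
    (hJ : J ⊆ I) (hb : b' ≤ b) : P1 G H S b' J := by
  intro M hM hne
  obtain ⟨v, hv, h1⟩ := h M (hM.trans hJ) hne
  exact ⟨v, hv, fun x hx hxv => (h1 x hx hxv).mono (Finset.Subset.refl _) (by omega)⟩

theorem P2.sub {G : SimpleGraph V} {H S I J : Finset V} {b b' : ℕ} (h : P2 G H S b I)
    (hJ : J ⊆ I) (hb : b' ≤ b) : P2 G H S b' J := by
  intro M hM M' hM' h1 h2 h3
  obtain ⟨v, hv, v', hv', h4, h5⟩ := h M (hM.trans hJ) M' (hM'.trans hJ) h1 h2 h3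
  exact ⟨v, hv, v', hv', h4, h5.mono (Finset.Subset.refl _) (by omega)⟩

/-- one element, any two vertices joined by `b + 3` vertices -/
theorem P1.single {G : SimpleGraph V} {H S : Finset V} {b : ℕ} {v : V}
    (h : ∀ x ∈ H, x ≠ v → Pth G H v x (b + 3)) : P1 G H S b {v} := by
  intro M hM hne
  have hMv : M = {v} := by
    rcases Finset.subset_singleton_iff.1 hM with h | h
    · exact absurd h (Finset.nonempty_iff_ne_empty.1 hne)
    · exact h
  subst hMv
  refine ⟨v, Finset.mem_singleton_self _, fun x hx hxv => (h x hx hxv).mono (Finset.Subset.refl _) ?_⟩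
  rw [Finset.card_singleton]
  omega

theorem P2.single {G : SimpleGraph V} {H S : Finset V} {b : ℕ} {v : V} : P2 G H S b {v} := by
  intro M hM M' hM' h1 h2 h3
  have h4 : ∀ N ⊆ ({v} : Finset V), N.Nonempty → N = {v} := by
    intro N hN hne
    rcases Finset.subset_singleton_iff.1 hN with h | h
    · exact absurd h (Finset.nonempty_iff_ne_empty.1 hne)
    · exact h
  have h5 := h3 ((h4 M hM h1).trans (h4 M' hM' h2).symm)
  rw [h4 M hM h1, Finset.card_singleton] at h5
  omega

end Pool.Agent.H41P
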